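import Pool.Agent.H91.Hk4

set_option autoImplicit false

open Pool.Agent.H91.Hk in
theorem Pool.Agent.Results.MP_ff8adc_an.Zero.result :
    ∃ α : ℝ, 3 / 5 < α ∧ α < 1 ∧ ∃ t : ℝ,
    HasSum (fun k : ℕ => (Complex.I * t) ^ k / Complex.Gamma (α * k + 1)) 0 :=
  main
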